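import Mathlib

set_option autoImplicit false

/-!
# Density of connected sets under minimum degree three

The mean order of a nonempty vertex set inducing a connected subgraph of a connected graph with `n`
vertices and minimum degree at least three is at most `2047 / 2048 * n`.

Proof. There is a connected dominating set with at most `7 n / 8` vertices: take a maximal set of
vertices with pairwise disjoint closed neighbourhoods, attach all other vertices to the resulting
stars, and join the stars. So there are at least `2 ^ (n / 8)` connected sets, whereas at most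
`2 ^ (3 n / 64)` sets of vertices miss at most `n / 256` vertices.
-/

open Finset

namespace Pool.Agent.Results.MP_345bc6_co.DensityBelowOne

open Classical in
/-- the connected sets of `G`: the (nonempty) vertex sets inducing a connected subgraph -/
noncomputable def connSets {V : Type} [Fintype V] (G : SimpleGraph V) : Finset (Finset V) :=
  univ.filter (fun U => (G.induce (U : Set V)).Connected)

/-- the mean order `A(G)` of the connected sets -/
noncomputable def meanOrder {V : Type} [Fintype V] (G : SimpleGraph V) : ℝ :=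
  (∑ U ∈ connSets G, (U.card : ℝ)) / (connSets G).card

/-- the density `D(G)` of the connected sets -/
noncomputable def density {V : Type} [Fintype V] (G : SimpleGraph V) : ℝ :=
  meanOrder G / Fintype.card V

section
variable {V : Type} (G : SimpleGraph V)

theorem conn_singleton (v : V) : (G.induce ({v} : Set V)).Connected := by
  have : Subsingleton ({v} : Set V) := Set.subsingleton_singleton.coe_sort
  have : Nonempty ({v} : Set V) := ⟨⟨v, rfl⟩⟩
  exact SimpleGraph.Connected.mk fun a b => by rw [Subsingleton.elim a b]

theorem conn_union {S T : Set V} (hS : (G.induce S).Connected) (hT : (G.induce T).Connected)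
    {x y : V} (hx : x ∈ S) (hy : y ∈ T) (h : G.Adj x y) : (G.induce (S ∪ T)).Connected :=
  SimpleGraph.connected_induce_union hS.preconnected hT.preconnected hx hy h

theorem conn_insert {S : Set V} (hS : (G.induce S).Connected) {x : V} {z : V} (hz : z ∈ S)
    (h : G.Adj x z) : (G.induce (insert x S)).Connected := by
  have := conn_union G hS (conn_singleton G x) hz rfl h.symm
  rwa [Set.union_singleton] at this

/-- adding vertices with neighbours in the set keeps it connected -/
theorem conn_superset [DecidableEq V] {D : Finset V} (hD : (G.induce (D : Set V)).Connected)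
    (hdom : ∀ x, x ∉ D → ∃ z ∈ D, G.Adj x z) (S : Finset V) :
    (G.induce ((D ∪ S : Finset V) : Set V)).Connected := by
  induction S using Finset.induction_on with
  | empty => rwa [union_empty]
  | insert a S _ ih =>
    by_cases ha : a ∈ D ∪ S
    · have : D ∪ insert a S = D ∪ S := by
        rw [union_insert, insert_eq_self.2 ha]
      rwa [this]
    · obtain ⟨z, hz, hadj⟩ := hdom a fun h => ha (mem_union_left _ h)
      have h2 := conn_insert G ih (x := a) (z := z)
        (mem_coe.2 (mem_union_left _ hz)) hadj
      rw [union_insert, coe_insert]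
      exact h2

end

/-- **Joining the clusters.** -/
theorem join_clusters {V : Type} [Fintype V] [DecidableEq V] (G : SimpleGraph V)
    (hG : G.Connected) (P : Finset V) (cl : V → V) (hcl : ∀ x, cl x ∈ P)
    (hP : ∀ v ∈ P, cl v = v) (core : V → Finset V)
    (hcore : ∀ v ∈ P, (G.induce (core v : Set V)).Connected)
    (hnear : ∀ x, x ∈ core (cl x) ∨ ∃ z ∈ core (cl x), G.Adj x z) :
    ∀ k : ℕ, 1 ≤ k → k ≤ P.card → ∃ Q ⊆ P, Q.card = k ∧ ∃ X : Finset V, X.card + 2 ≤ 2 * k ∧
      (G.induce ((Q.biUnion core ∪ X : Finset V) : Set V)).Connected := by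
  intro k hk
  induction k, hk using Nat.le_induction with
  | base =>
    intro h
    obtain ⟨v, hv⟩ := Finset.card_pos.1 h
    refine ⟨{v}, by simpa using hv, by simp, ∅, by simp, ?_⟩
    rw [singleton_biUnion, union_empty]
    exact hcore v hv
  | succ k hk ih =>
    intro h
    obtain ⟨Q, hQP, hQ, X, hX, hconn⟩ := ih (by omega)
    obtain ⟨v, hv⟩ := Finset.card_pos.1 (by omega : 0 < Q.card)
    obtain ⟨w, hwP, hwQ⟩ : ∃ w ∈ P, w ∉ Q := by
      by_contra hcon
      push Not at hcon
      have := card_le_card (show P ⊆ Q from hcon)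
      omega
    obtain ⟨p⟩ := hG.preconnected v w
    obtain ⟨d, -, hd1, hd2⟩ := p.exists_boundary_dart {x | cl x ∈ Q}
      (by show cl v ∈ Q; rw [hP v (hQP hv)]; exact hv)
      (by show cl w ∉ Q; rw [hP w hwP]; exact hwQ)
    set x := d.fst
    set y := d.snd
    have hxy : G.Adj x y := d.adj
    have hx : cl x ∈ Q := hd1
    have hy : cl y ∉ Q := hd2
    refine ⟨insert (cl y) Q, insert_subset (hcl y) hQP, by rw [card_insert_of_notMem hy, hQ],
      insert x (insert y X), ?_, ?_⟩
    · have h1 := card_insert_le x (insert y X)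
      have h2 := card_insert_le y X
      omega
    · -- the old set with `x`
      have hsub : core (cl x) ⊆ Q.biUnion core ∪ X := fun z hz =>
        mem_union_left _ (mem_biUnion.2 ⟨cl x, hx, hz⟩)
      have h1 : (G.induce (insert x ((Q.biUnion core ∪ X : Finset V) : Set V))).Connected := by
        rcases hnear x with h1 | ⟨z, hz, hadj⟩
        · rw [Set.insert_eq_of_mem (mem_coe.2 (hsub h1))]
          exact hconn
        · exact conn_insert G hconn (mem_coe.2 (hsub hz)) hadj
      have h2 : (G.induce (insert y (core (cl y) : Set V))).Connected := by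
        rcases hnear y with h1 | ⟨z, hz, hadj⟩
        · rw [Set.insert_eq_of_mem (mem_coe.2 h1)]
          exact hcore _ (hcl y)
        · exact conn_insert G (hcore _ (hcl y)) (mem_coe.2 hz) hadj
      have h3 := conn_union G h1 h2 (Set.mem_insert x _) (Set.mem_insert y _) hxy
      have e : ((((insert (cl y) Q).biUnion core ∪ insert x (insert y X) : Finset V)) : Set V) =
          insert x ((Q.biUnion core ∪ X : Finset V) : Set V) ∪
            insert y (core (cl y) : Set V) := by
        have e1 : (insert (cl y) Q).biUnion core ∪ insert x (insert y X) =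
            insert x (Q.biUnion core ∪ X) ∪ insert y (core (cl y)) := by
          ext z
          rw [biUnion_insert]
          generalize Q.biUnion core = Y
          simp only [mem_insert, mem_union]
          tauto
        rw [e1, coe_union, coe_insert, coe_insert]
      rw [e]
      exact h3

/-- **A small connected dominating set.** -/
theorem exists_dominating {V : Type} [Fintype V] [DecidableEq V] (G : SimpleGraph V)
    (hG : G.Connected) (hdeg : ∀ v, 3 ≤ (G.neighborSet v).ncard) :
    ∃ D : Finset V, (G.induce (D : Set V)).Connected ∧ (∀ x, x ∉ D → ∃ z ∈ D, G.Adj x z) ∧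
      8 * D.card ≤ 7 * Fintype.card V := by
  classical
  -- neighbourhoods
  set N : V → Finset V := fun v => univ.filter (G.Adj v) with hN
  have memN : ∀ v x, x ∈ N v ↔ G.Adj v x := fun v x => by simp [hN]
  have hN3 : ∀ v, 3 ≤ (N v).card := by
    intro v
    have h1 := hdeg v
    have h2 : (G.neighborSet v) = (N v : Set V) := by
      ext x
      simp [hN]
    rwa [h2, Set.ncard_coe_finset] at h1
  -- a maximal packing
  set good : Finset V → Prop := fun P => ∀ v ∈ P, ∀ w ∈ P, v ≠ w →
    Disjoint (insert v (N v)) (insert w (N w)) with hgood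
  obtain ⟨P, hPmem, hPmax⟩ := Finset.exists_max_image (univ.filter good) Finset.card
    ⟨∅, by simp [hgood]⟩
  have hPgood : good P := (mem_filter.1 hPmem).2
  set W : Finset V := P.biUnion (fun v => insert v (N v)) with hW
  -- attachment of the vertices outside `W`
  have hatt : ∀ x, x ∉ W → ∃ y, (∃ v ∈ P, y ∈ N v) ∧ G.Adj x y := by
    intro x hx
    have hxP : x ∉ P := fun h => hx (mem_biUnion.2 ⟨x, h, mem_insert_self _ _⟩)
    have hnot : ¬ good (insert x P) := by
      intro h
      have h1 := hPmax _ (mem_filter.2 ⟨mem_univ _, h⟩)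
      rw [card_insert_of_notMem hxP] at h1
      omega
    have : ∃ v ∈ P, ¬ Disjoint (insert x (N x)) (insert v (N v)) := by
      by_contra hcon
      push Not at hcon
      apply hnot
      intro v hv w hw hne
      rcases mem_insert.1 hv with rfl | hv' <;> rcases mem_insert.1 hw with rfl | hw'
      · exact absurd rfl hne
      · exact hcon w hw'
      · exact (hcon v hv').symm
      · exact hPgood v hv' w hw' hne
    obtain ⟨v, hv, hdis⟩ := this
    obtain ⟨y, hy1, hy2⟩ := not_disjoint_iff.1 hdis
    have hyW : y ∈ W := mem_biUnion.2 ⟨v, hv, hy2⟩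
    have hyx : y ≠ x := fun h => hx (h ▸ hyW)
    have hadj : G.Adj x y := by
      rcases mem_insert.1 hy1 with h | h
      · exact absurd h hyx
      · exact (memN x y).1 h
    rcases mem_insert.1 hy2 with h | h
    · -- then `x` would be a neighbour of `v`
      exfalso
      apply hx
      subst h
      exact mem_biUnion.2 ⟨y, hv, mem_insert_of_mem ((memN y x).2 hadj.symm)⟩
    · exact ⟨y, ⟨v, hv, h⟩, hadj⟩
  choose! att hatt1 hatt2 using hatt
  -- the centre of the star of an element of `W`
  have hcen : ∀ x, x ∈ W → ∃ v ∈ P, x ∈ insert v (N v) := fun x hx => mem_biUnion.1 hx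
  choose! cen hcen1 hcen2 using hcen
  have attW : ∀ x, x ∉ W → att x ∈ W := by
    intro x hx
    obtain ⟨v, hv, h⟩ := hatt1 x hx
    exact mem_biUnion.2 ⟨v, hv, mem_insert_of_mem h⟩
  set cl : V → V := fun x => if x ∈ W then cen x else cen (att x) with hcl
  have clW : ∀ x, x ∈ W → cl x = cen x := fun x hx => by simp [hcl, hx]
  have clnW : ∀ x, x ∉ W → cl x = cen (att x) := fun x hx => by simp [hcl, hx]
  have hclP : ∀ x, cl x ∈ P := by
    intro x
    by_cases hx : x ∈ W
    · rw [clW x hx]; exact hcen1 x hx
    · rw [clnW x hx]; exact hcen1 _ (attW x hx)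
  have uniq : ∀ x v, v ∈ P → x ∈ insert v (N v) → cen x = v := by
    intro x v hv hx
    have hxW : x ∈ W := mem_biUnion.2 ⟨v, hv, hx⟩
    by_contra hne
    exact disjoint_left.1 (hPgood _ (hcen1 x hxW) _ hv hne) (hcen2 x hxW) hx
  have hPW : ∀ v ∈ P, v ∈ W := fun v hv => mem_biUnion.2 ⟨v, hv, mem_insert_self _ _⟩
  have hPcl : ∀ v ∈ P, cl v = v := fun v hv => by
    rw [clW v (hPW v hv)]
    exact uniq v v hv (mem_insert_self _ _)
  -- the grandchildren and the core of a cluster
  set gc : V → Finset V := fun v => univ.filter (fun x => x ∉ W ∧ cl x = v) with hgc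
  set core : V → Finset V := fun v => insert v ((gc v).image att) with hcore
  have attN : ∀ x, x ∉ W → att x ∈ N (cl x) := by
    intro x hx
    obtain ⟨v, hv, h⟩ := hatt1 x hx
    rw [clnW x hx, uniq (att x) v hv (mem_insert_of_mem h)]
    exact h
  have himg : ∀ v, (gc v).image att ⊆ N v := by
    intro v y hy
    obtain ⟨x, hx, rfl⟩ := mem_image.1 hy
    obtain ⟨-, hxW, hxv⟩ := mem_filter.1 hx
    rw [← hxv]
    exact attN x hxW
  have hcoreconn : ∀ v ∈ P, (G.induce (core v : Set V)).Connected := by
    intro v _
    have key : ∀ A : Finset V, A ⊆ N v → (G.induce ((insert v A : Finset V) : Set V)).Connected := by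
      intro A
      induction A using Finset.induction_on with
      | empty =>
        intro _
        rw [insert_empty_eq, coe_singleton]
        exact conn_singleton G v
      | insert a A _ ih =>
        intro hA
        have h1 := ih ((subset_insert _ _).trans hA)
        have h2 := conn_insert G h1 (x := a) (z := v) (by simp)
          (((memN v a).1 (hA (mem_insert_self _ _))).symm)
        rw [Finset.insert_comm, coe_insert]
        exact h2
    exact key _ (himg v)
  have hnear : ∀ x, x ∈ core (cl x) ∨ ∃ z ∈ core (cl x), G.Adj x z := by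
    intro x
    by_cases hx : x ∈ W
    · rcases mem_insert.1 (hcen2 x hx) with h | h
      · left
        rw [clW x hx, ← h]
        exact mem_insert_self _ _
      · right
        refine ⟨cl x, mem_insert_self _ _, ?_⟩
        rw [clW x hx]
        exact ((memN _ _).1 h).symm
    · right
      refine ⟨att x, mem_insert_of_mem (mem_image_of_mem _ ?_), hatt2 x hx⟩
      exact mem_filter.2 ⟨mem_univ _, hx, rfl⟩
  -- `P` is nonempty
  have hPpos : 1 ≤ P.card := by
    obtain ⟨x⟩ := hG.nonempty
    exact Finset.card_pos.2 ⟨cl x, hclP x⟩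
  obtain ⟨Q, hQP, hQ, X, hX, hconn⟩ := join_clusters G hG P cl hclP hPcl core hcoreconn hnear
    P.card hPpos le_rfl
  have hQeq : Q = P := eq_of_subset_of_card_le hQP hQ.ge
  subst hQeq
  refine ⟨Q.biUnion core ∪ X, hconn, ?_, ?_⟩
  · intro x hx
    rcases hnear x with h | ⟨z, hz, hadj⟩
    · exact absurd (mem_union_left _ (mem_biUnion.2 ⟨cl x, hclP x, h⟩)) hx
    · exact ⟨z, mem_union_left _ (mem_biUnion.2 ⟨cl x, hclP x, hz⟩), hadj⟩
  · -- sizes
    have hsize : ∀ v ∈ Q, 8 * ((core v).card + 2) ≤
        7 * (univ.filter (fun x => cl x = v)).card := by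
      intro v hv
      have hfib : (univ.filter (fun x => cl x = v)).card = (insert v (N v)).card + (gc v).card := by
        rw [← card_union_of_disjoint]
        · congr 1
          ext x
          rw [mem_filter, mem_union]
          constructor
          · rintro ⟨-, hx⟩
            by_cases hxW : x ∈ W
            · left
              rw [← hx, clW x hxW]
              exact hcen2 x hxW
            · right
              exact mem_filter.2 ⟨mem_univ _, hxW, hx⟩
          · rintro (hx | hx)
            · refine ⟨mem_univ _, ?_⟩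
              rw [clW x (mem_biUnion.2 ⟨v, hv, hx⟩)]
              exact uniq x v hv hx
            · exact ⟨mem_univ _, (mem_filter.1 hx).2.2⟩
        · rw [disjoint_left]
          intro x hx hx'
          exact (mem_filter.1 hx').2.1 (mem_biUnion.2 ⟨v, hv, hx⟩)
      have hins : (insert v (N v)).card = (N v).card + 1 :=
        card_insert_of_notMem (by rw [memN]; exact G.irrefl)
      have h1 : (core v).card ≤ ((gc v).image att).card + 1 := card_insert_le _ _
      have h2 : ((gc v).image att).card ≤ (gc v).card := card_image_le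
      have h3 : ((gc v).image att).card ≤ (N v).card := card_le_card (himg v)
      have h4 := hN3 v
      rw [hfib, hins]
      omega
    have hsum : ∑ v ∈ Q, (univ.filter (fun x => cl x = v)).card = Fintype.card V := by
      rw [← card_biUnion]
      · rw [← card_univ]
        congr 1
        ext x
        simp [hclP x]
      · intro a _ b _ hab
        rw [Function.onFun, disjoint_left]
        intro x hx hx'
        exact hab ((mem_filter.1 hx).2.symm.trans (mem_filter.1 hx').2)
    have h1 : (Q.biUnion core).card ≤ ∑ v ∈ Q, (core v).card := card_biUnion_le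
    have h2 : (Q.biUnion core ∪ X).card ≤ (Q.biUnion core).card + X.card := card_union_le _ _
    have h3 : ∑ v ∈ Q, 8 * ((core v).card + 2) ≤
        ∑ v ∈ Q, 7 * (univ.filter (fun x => cl x = v)).card := sum_le_sum hsize
    rw [← mul_sum, ← mul_sum, hsum, sum_add_distrib, sum_const, smul_eq_mul] at h3
    omega

set_option exponentiation.threshold 1000 in
theorem num_aux : (65 : ℕ) ^ 256 ≤ 64 ^ 257 := by
  norm_num

theorem card_large {V : Type} [Fintype V] [DecidableEq V] (B : Finset (Finset V))
    (hB : ∀ U ∈ B, 256 * (Fintype.card V - U.card) ≤ Fintype.card V) :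
    B.card ^ 256 ≤ 64 ^ (2 * Fintype.card V) := by
  set n := Fintype.card V with hn
  set k := n / 256 with hk
  have h1 : B.card * 64 ^ (n - k) ≤ 65 ^ n := by
    have e := Fintype.sum_pow_mul_eq_add_pow V (64 : ℕ) 1
    simp only [one_pow, mul_one] at e
    calc B.card * 64 ^ (n - k) = ∑ _U ∈ B, 64 ^ (n - k) := by rw [sum_const, smul_eq_mul]
      _ ≤ ∑ U ∈ B, 64 ^ U.card := by
          apply sum_le_sum
          intro U hU
          have := hB U hU
          exact Nat.pow_le_pow_right (by norm_num) (by omega)
      _ ≤ ∑ U : Finset V, 64 ^ U.card := sum_le_sum_of_subset (subset_univ _)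
      _ = 65 ^ n := by rw [e]
  have h2 : B.card ^ 256 * 64 ^ (255 * n) ≤ 64 ^ (257 * n) := by
    calc B.card ^ 256 * 64 ^ (255 * n) ≤ B.card ^ 256 * 64 ^ ((n - k) * 256) := by
          refine Nat.mul_le_mul_left _ (Nat.pow_le_pow_right (by norm_num) ?_)
          omega
      _ = (B.card * 64 ^ (n - k)) ^ 256 := by rw [mul_pow, ← pow_mul]
      _ ≤ (65 ^ n) ^ 256 := Nat.pow_le_pow_left h1 _
      _ = (65 ^ 256) ^ n := by rw [← pow_mul, ← pow_mul, mul_comm]
      _ ≤ (64 ^ 257) ^ n := Nat.pow_le_pow_left num_aux _
      _ = 64 ^ (257 * n) := by rw [← pow_mul]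
  have h3 : 64 ^ (257 * n) = 64 ^ (2 * n) * 64 ^ (255 * n) := by
    rw [← pow_add]
    congr 1
    ring
  rw [h3] at h2
  exact Nat.le_of_mul_le_mul_right h2 (by positivity)

/-- **The density of connected sets is bounded away from one** for connected graphs of minimum
degree at least three. -/
theorem result : ∀ (V : Type) [Fintype V] (G : SimpleGraph V), G.Connected →
    (∀ v, 3 ≤ (G.neighborSet v).ncard) → density G ≤ 2047 / 2048 := by
  intro V _ G hG hdeg
  classical
  obtain ⟨D, hD, hdom, hcard⟩ := exists_dominating G hG hdeg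
  set n := Fintype.card V with hn
  have hn4 : 4 ≤ n := by
    obtain ⟨v⟩ := hG.nonempty
    have h1 := hdeg v
    have h2 : (insert v (G.neighborSet v)).ncard = (G.neighborSet v).ncard + 1 :=
      Set.ncard_insert_of_notMem (by simp)
    have h3 : (insert v (G.neighborSet v)).ncard ≤ (Set.univ : Set V).ncard :=
      Set.ncard_le_ncard (Set.subset_univ _)
    rw [Set.ncard_univ, Nat.card_eq_fintype_card] at h3
    omega
  -- many connected sets
  set C := connSets G with hC
  have hmany : 2 ^ (n - D.card) ≤ C.card := by
    have h1 : (Dᶜ.powerset.image (fun S => D ∪ S)).card = 2 ^ (n - D.card) := by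
      rw [card_image_of_injOn, card_powerset, card_compl]
      intro S hS T hT hST
      have hS' := mem_powerset.1 (mem_coe.1 hS)
      have hT' := mem_powerset.1 (mem_coe.1 hT)
      have hdS : Disjoint D S := disjoint_left.2 fun x hx hx' => (mem_compl.1 (hS' hx')) hx
      have hdT : Disjoint D T := disjoint_left.2 fun x hx hx' => (mem_compl.1 (hT' hx')) hx
      have h : D ∪ S = D ∪ T := hST
      ext x
      have hx : x ∈ D ∪ S ↔ x ∈ D ∪ T := by rw [h]
      rw [mem_union, mem_union] at hx
      constructor
      · intro hxS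
        rcases hx.1 (Or.inr hxS) with h1 | h1
        · exact absurd hxS (disjoint_left.1 hdS h1)
        · exact h1
      · intro hxT
        rcases hx.2 (Or.inr hxT) with h1 | h1
        · exact absurd hxT (disjoint_left.1 hdT h1)
        · exact h1
    rw [← h1]
    apply card_le_card
    intro U hU
    obtain ⟨S, -, rfl⟩ := mem_image.1 hU
    rw [hC, connSets, mem_filter]
    exact ⟨mem_univ _, conn_superset G hD hdom S⟩
  have hmany256 : 2 ^ (32 * n) ≤ C.card ^ 256 := by
    calc 2 ^ (32 * n) ≤ 2 ^ ((n - D.card) * 256) := Nat.pow_le_pow_right (by norm_num) (by omega)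
      _ = (2 ^ (n - D.card)) ^ 256 := by rw [pow_mul]
      _ ≤ C.card ^ 256 := Nat.pow_le_pow_left hmany _
  have hCpos : 0 < C.card := lt_of_lt_of_le (by positivity) hmany
  -- few large sets
  set B := C.filter (fun U => 256 * (n - U.card) ≤ n) with hB
  have hfew := card_large B (fun U hU => (mem_filter.1 hU).2)
  have hfrac : 8 * B.card ≤ 7 * C.card := by
    by_contra hcon
    push Not at hcon
    have h1 : (7 * C.card) ^ 256 < (8 * B.card) ^ 256 :=
      Nat.pow_lt_pow_left hcon (by norm_num)
    rw [mul_pow, mul_pow] at h1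
    have h2 : 7 ^ 256 * 2 ^ (32 * n) < 8 ^ 256 * 64 ^ (2 * n) := by
      calc 7 ^ 256 * 2 ^ (32 * n) ≤ 7 ^ 256 * C.card ^ 256 := Nat.mul_le_mul_left _ hmany256
        _ < 8 ^ 256 * B.card ^ 256 := h1
        _ ≤ 8 ^ 256 * 64 ^ (2 * n) := Nat.mul_le_mul_left _ hfew
    have e1 : (64 : ℕ) ^ (2 * n) = 2 ^ (12 * n) := by
      rw [show (64 : ℕ) = 2 ^ 6 by norm_num, ← pow_mul]
      congr 1
      ring
    have e2 : (2 : ℕ) ^ (32 * n) = 2 ^ (20 * n) * 2 ^ (12 * n) := by
      rw [← pow_add]
      congr 1
      ring
    rw [e1, e2, ← mul_assoc] at h2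
    have h3 := Nat.lt_of_mul_lt_mul_right h2
    have h4 : (2 : ℕ) ^ 80 ≤ 2 ^ (20 * n) := Nat.pow_le_pow_right (by norm_num) (by omega)
    have h5 : (7 : ℕ) ^ 256 * 2 ^ 80 ≤ 7 ^ 256 * 2 ^ (20 * n) := Nat.mul_le_mul_left _ h4
    have h6 : (8 : ℕ) ^ 256 ≤ 7 ^ 256 * 2 ^ 80 := by norm_num
    omega
  -- the sum
  have hnR : (0 : ℝ) < n := by exact_mod_cast (by omega : 0 < n)
  have hCR : (0 : ℝ) < C.card := by exact_mod_cast hCpos
  have hsum : ∑ U ∈ C, (U.card : ℝ) ≤ 255 / 256 * n * C.card + n / 256 * B.card := by
    have h1 : ∀ U ∈ C, (U.card : ℝ) ≤ 255 / 256 * n +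
        (if 256 * (n - U.card) ≤ n then (n : ℝ) / 256 else 0) := by
      intro U _
      have hUn : U.card ≤ n := card_le_univ U
      split_ifs with h
      · have : (U.card : ℝ) ≤ n := by exact_mod_cast hUn
        linarith
      · have h2 : 256 * U.card ≤ 255 * n := by omega
        have : (256 : ℝ) * U.card ≤ 255 * n := by exact_mod_cast h2
        linarith
    refine (sum_le_sum h1).trans ?_
    rw [sum_add_distrib, sum_const, nsmul_eq_mul, ← sum_filter, sum_const, nsmul_eq_mul]
    rw [← hB]
    apply le_of_eq
    ring
  have hBR : (B.card : ℝ) ≤ 7 / 8 * C.card := by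
    have : (8 : ℝ) * B.card ≤ 7 * C.card := by exact_mod_cast hfrac
    linarith
  unfold density meanOrder
  rw [← hC, div_div, div_le_iff₀ (by positivity)]
  refine hsum.trans ?_
  have h7 : (n : ℝ) / 256 * B.card ≤ n / 256 * (7 / 8 * C.card) := by gcongr
  rw [← hn]
  nlinarith [mul_pos hCR hnR]

end Pool.Agent.Results.MP_345bc6_co.DensityBelowOne
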